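import Mathlib

set_option autoImplicit false

open Finset

/-!
# The link lemma (helper99, note 2072; equality by helper63)

`n = 2 m - 1`, `G` a set of `m` rows, `g` a permutation: a family in which any two members agree in at
least `m - 1` points and every member agrees with `g` in at least `m - 1` points of `G` has at most
`m!` members, with equality only for the stars of `G` minus a point.
-/

namespace Pool.Link63

variable {α : Type*} [Fintype α] [DecidableEq α]

lemma api {β : Type*} (σ : Equiv.Perm β) (x : β) : σ (σ⁻¹ x) = x := σ.apply_symm_apply x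

lemma iap {β : Type*} (σ : Equiv.Perm β) (x : β) : σ⁻¹ (σ x) = x := σ.symm_apply_apply x

/-- The permutations fixing every point of `G`. -/
def HF (G : Finset α) : Finset (Equiv.Perm α) := univ.filter (fun σ => ∀ i ∈ G, σ i = i)

/-- The permutations which fix `G` minus `x` and do not fix `x`. -/
def SX (G : Finset α) (x : α) : Finset (Equiv.Perm α) :=
  univ.filter (fun σ => (∀ i ∈ G, i ≠ x → σ i = i) ∧ σ x ≠ x)

/-- No common cell in a row outside `G`. -/
def Clash (G : Finset α) (σ τ : Equiv.Perm α) : Prop := ∀ i, i ∉ G → σ i ≠ τ i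

lemma mem_HF {G : Finset α} {σ : Equiv.Perm α} : σ ∈ HF G ↔ ∀ i ∈ G, σ i = i := by
  simp [HF]

lemma mem_SX {G : Finset α} {x : α} {σ : Equiv.Perm α} :
    σ ∈ SX G x ↔ (∀ i ∈ G, i ≠ x → σ i = i) ∧ σ x ≠ x := by
  simp [SX]

lemma HF_mul {G : Finset α} {a b : Equiv.Perm α} (ha : a ∈ HF G) (hb : b ∈ HF G) :
    a * b ∈ HF G := by
  rw [mem_HF] at *
  intro i hi
  rw [Equiv.Perm.mul_apply, hb i hi, ha i hi]

lemma HF_inv {G : Finset α} {a : Equiv.Perm α} (ha : a ∈ HF G) : a⁻¹ ∈ HF G := by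
  rw [mem_HF] at *
  intro i hi
  rw [Equiv.Perm.inv_eq_iff_eq, ha i hi]

lemma HF_one {G : Finset α} : (1 : Equiv.Perm α) ∈ HF G := by
  rw [mem_HF]
  intro i _
  rfl

lemma SX_mul {G : Finset α} {x : α} (hx : x ∈ G) {a b σ : Equiv.Perm α} (ha : a ∈ HF G)
    (hb : b ∈ HF G) (hσ : σ ∈ SX G x) : b * σ * a ∈ SX G x := by
  rw [mem_HF] at ha hb
  rw [mem_SX] at *
  refine ⟨fun i hi hix => ?_, fun h => ?_⟩
  · rw [Equiv.Perm.mul_apply, Equiv.Perm.mul_apply, ha i hi, hσ.1 i hi hix, hb i hi]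
  · rw [Equiv.Perm.mul_apply, Equiv.Perm.mul_apply, ha x hx] at h
    apply hσ.2
    apply b.injective
    rw [h, hb x hx]

lemma inv_not_mem {G : Finset α} {x : α} {σ : Equiv.Perm α} (hσ : σ ∈ SX G x) :
    σ⁻¹ x ∉ G := by
  rw [mem_SX] at hσ
  intro h
  by_cases hx : σ⁻¹ x = x
  · rw [Equiv.Perm.inv_eq_iff_eq] at hx
    exact hσ.2 hx.symm
  · have := hσ.1 _ h hx
    rw [api] at this
    exact hx this.symm

lemma SX_trans {G : Finset α} {x : α} {σ τ : Equiv.Perm α} (hσ : σ ∈ SX G x) (hτ : τ ∈ SX G x) :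
    ∃ b ∈ HF G, ∃ a ∈ HF G, b * σ * a = τ := by
  have h1 := inv_not_mem hσ
  have h2 := inv_not_mem hτ
  rw [mem_SX] at hσ hτ
  refine ⟨τ * (Equiv.swap (σ⁻¹ x) (τ⁻¹ x))⁻¹ * σ⁻¹, ?_, Equiv.swap (σ⁻¹ x) (τ⁻¹ x), ?_, ?_⟩
  · rw [mem_HF]
    intro i hi
    rw [Equiv.Perm.mul_apply, Equiv.Perm.mul_apply, Equiv.swap_inv]
    by_cases hix : i = x
    · subst hix
      rw [Equiv.swap_apply_left, api]
    · have e1 : σ⁻¹ i = i := by
        rw [Equiv.Perm.inv_eq_iff_eq, hσ.1 i hi hix]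
      rw [e1, Equiv.swap_apply_of_ne_of_ne, hτ.1 i hi hix]
      · rintro rfl
        exact h1 hi
      · rintro rfl
        exact h2 hi
  · rw [mem_HF]
    intro i hi
    apply Equiv.swap_apply_of_ne_of_ne
    · rintro rfl
      exact h1 hi
    · rintro rfl
      exact h2 hi
  · group

/-- number of pairs moving `σ` into `A` -/
def SS (G : Finset α) (A : Finset (Equiv.Perm α)) (σ : Equiv.Perm α) : ℕ :=
  ((HF G ×ˢ HF G).filter (fun p => p.1 * σ * p.2 ∈ A)).card

lemma SS_const {G : Finset α} (A : Finset (Equiv.Perm α)) {x : α} {σ τ : Equiv.Perm α}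
    (hσ : σ ∈ SX G x) (hτ : τ ∈ SX G x) : SS G A σ = SS G A τ := by
  obtain ⟨b, hb, a, ha, h⟩ := SX_trans hσ hτ
  symm
  unfold SS
  refine Finset.card_bij' (fun p _ => (p.1 * b, a * p.2)) (fun p _ => (p.1 * b⁻¹, a⁻¹ * p.2))
    ?_ ?_ ?_ ?_
  · intro p hp
    rw [Finset.mem_filter, Finset.mem_product] at hp ⊢
    refine ⟨⟨HF_mul hp.1.1 hb, HF_mul ha hp.1.2⟩, ?_⟩
    have : p.1 * b * σ * (a * p.2) = p.1 * τ * p.2 := by
      rw [← h]; group
    rw [this]
    exact hp.2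
  · intro p hp
    rw [Finset.mem_filter, Finset.mem_product] at hp ⊢
    refine ⟨⟨HF_mul hp.1.1 (HF_inv hb), HF_mul (HF_inv ha) hp.1.2⟩, ?_⟩
    have : p.1 * b⁻¹ * τ * (a⁻¹ * p.2) = p.1 * σ * p.2 := by
      rw [← h]; group
    rw [this]
    exact hp.2
  · intro p _
    ext1
    · simp
    · simp
  · intro p _
    ext1
    · simp
    · simp

lemma SS_sum {G : Finset α} (A : Finset (Equiv.Perm α)) {x : α} (hx : x ∈ G) :
    ∑ σ ∈ SX G x, SS G A σ = ((HF G).card * (HF G).card) * (A ∩ SX G x).card := by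
  have h1 : ∀ p ∈ HF G ×ˢ HF G,
      ((SX G x).filter (fun σ => p.1 * σ * p.2 ∈ A)).card = (A ∩ SX G x).card := by
    intro p hp
    rw [Finset.mem_product] at hp
    refine Finset.card_bij' (fun σ _ => p.1 * σ * p.2) (fun σ _ => p.1⁻¹ * σ * p.2⁻¹)
      ?_ ?_ ?_ ?_
    · intro σ hσ
      rw [Finset.mem_filter] at hσ
      rw [Finset.mem_inter]
      exact ⟨hσ.2, SX_mul hx hp.2 hp.1 hσ.1⟩
    · intro σ hσ
      rw [Finset.mem_inter] at hσ
      rw [Finset.mem_filter]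
      refine ⟨SX_mul hx (HF_inv hp.2) (HF_inv hp.1) hσ.2, ?_⟩
      have : p.1 * (p.1⁻¹ * σ * p.2⁻¹) * p.2 = σ := by group
      rw [this]
      exact hσ.1
    · intro σ _
      group
    · intro σ _
      group
  have h2 : ∀ σ ∈ SX G x, SS G A σ = ∑ p ∈ HF G ×ˢ HF G, if p.1 * σ * p.2 ∈ A then 1 else 0 := by
    intro σ _
    unfold SS
    rw [Finset.card_filter]
  rw [Finset.sum_congr rfl h2, Finset.sum_comm]
  have h3 : ∀ p ∈ HF G ×ˢ HF G,
      (∑ σ ∈ SX G x, if p.1 * σ * p.2 ∈ A then 1 else 0) = (A ∩ SX G x).card := by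
    intro p hp
    rw [← Finset.card_filter]
    exact h1 p hp
  rw [Finset.sum_congr rfl h3, Finset.sum_const, Finset.card_product, smul_eq_mul]

/-- A coclique family: one member of each `SX G x`, pairwise without common cell outside `G`. -/
def Fam (G : Finset α) (f : α → Equiv.Perm α) : Prop :=
  (∀ x ∈ G, f x ∈ SX G x) ∧ ∀ x ∈ G, ∀ y ∈ G, x ≠ y → Clash G (f x) (f y)

lemma Fam_move {G : Finset α} {f : α → Equiv.Perm α} (hf : Fam G f) {a b : Equiv.Perm α}
    (ha : a ∈ HF G) (hb : b ∈ HF G) : Fam G (fun x => b * f x * a) := by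
  refine ⟨fun x hx => SX_mul hx ha hb (hf.1 x hx), fun x hx y hy hxy i hi h => ?_⟩
  simp only [Equiv.Perm.mul_apply] at h
  have h1 := b.injective h
  refine hf.2 x hx y hy hxy (a i) ?_ h1
  intro hai
  have h2 := HF_inv ha
  rw [mem_HF] at h2
  have h3 := h2 _ hai
  rw [iap] at h3
  rw [h3] at hi
  exact hi hai

/-- two clashing members of different parts agree in too few points -/
lemma clash_card {G : Finset α} {x y : α} (hx : x ∈ G) (hy : y ∈ G) (hxy : x ≠ y)
    {σ τ : Equiv.Perm α} (hσ : σ ∈ SX G x) (hτ : τ ∈ SX G y) (h : Clash G σ τ) :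
    (univ.filter (fun i => σ i = τ i)).card + 2 ≤ G.card := by
  rw [mem_SX] at hσ hτ
  have hsub : univ.filter (fun i => σ i = τ i) ⊆ (G.erase x).erase y := by
    intro i hi
    rw [Finset.mem_filter] at hi
    have hiG : i ∈ G := by
      by_contra hc
      exact h i hc hi.2
    rw [Finset.mem_erase, Finset.mem_erase]
    refine ⟨?_, ?_, hiG⟩
    · rintro rfl
      apply hτ.2
      rw [← hi.2]
      exact hσ.1 i hiG (Ne.symm hxy)
    · rintro rfl
      apply hσ.2
      rw [hi.2]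
      exact hτ.1 i hiG hxy
  have h1 := Finset.card_le_card hsub
  have h2 : y ∈ G.erase x := Finset.mem_erase.2 ⟨Ne.symm hxy, hy⟩
  have h3 := Finset.card_erase_add_one h2
  have h4 := Finset.card_erase_add_one hx
  omega

lemma fam_le_one {G : Finset α} {A : Finset (Equiv.Perm α)} {m : ℕ} (hG : G.card = m)
    (hA : ∀ σ ∈ A, ∀ τ ∈ A, m ≤ (univ.filter (fun i => σ i = τ i)).card + 1)
    {f : α → Equiv.Perm α} (hf : Fam G f) : (G.filter (fun x => f x ∈ A)).card ≤ 1 := by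
  rw [Finset.card_le_one]
  intro x hx y hy
  rw [Finset.mem_filter] at hx hy
  by_contra hxy
  have h1 := clash_card hx.1 hy.1 hxy (hf.1 x hx.1) (hf.1 y hy.1) (hf.2 x hx.1 y hy.1 hxy)
  have h2 := hA _ hx.2 _ hy.2
  omega

lemma sum_SS {G : Finset α} (A : Finset (Equiv.Perm α)) (f : α → Equiv.Perm α) :
    ∑ x ∈ G, SS G A (f x) =
      ∑ p ∈ HF G ×ˢ HF G, (G.filter (fun x => p.1 * f x * p.2 ∈ A)).card := by
  have h2 : ∀ x ∈ G, SS G A (f x) =
      ∑ p ∈ HF G ×ˢ HF G, if p.1 * f x * p.2 ∈ A then 1 else 0 := by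
    intro x _
    unfold SS
    rw [Finset.card_filter]
  rw [Finset.sum_congr rfl h2, Finset.sum_comm]
  refine Finset.sum_congr rfl (fun p _ => ?_)
  rw [Finset.card_filter]

lemma sum_SS_le {G : Finset α} {A : Finset (Equiv.Perm α)} {m : ℕ} (hG : G.card = m)
    (hA : ∀ σ ∈ A, ∀ τ ∈ A, m ≤ (univ.filter (fun i => σ i = τ i)).card + 1)
    {f : α → Equiv.Perm α} (hf : Fam G f) :
    ∑ x ∈ G, SS G A (f x) ≤ (HF G).card * (HF G).card := by
  rw [sum_SS]
  calc ∑ p ∈ HF G ×ˢ HF G, (G.filter (fun x => p.1 * f x * p.2 ∈ A)).card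
      ≤ ∑ p ∈ HF G ×ˢ HF G, 1 := by
        refine Finset.sum_le_sum (fun p hp => ?_)
        rw [Finset.mem_product] at hp
        exact fam_le_one hG hA (Fam_move hf hp.2 hp.1)
    _ = (HF G).card * (HF G).card := by
        rw [Finset.sum_const, Finset.card_product, smul_eq_mul, mul_one]

/-- if the sum is maximal then every family meets `A` exactly once -/
lemma fam_eq_one {G : Finset α} {A : Finset (Equiv.Perm α)} {m : ℕ} (hG : G.card = m)
    (hA : ∀ σ ∈ A, ∀ τ ∈ A, m ≤ (univ.filter (fun i => σ i = τ i)).card + 1)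
    {f : α → Equiv.Perm α} (hf : Fam G f)
    (he : ∑ x ∈ G, SS G A (f x) = (HF G).card * (HF G).card) :
    (G.filter (fun x => f x ∈ A)).card = 1 := by
  refine le_antisymm (fam_le_one hG hA hf) ?_
  by_contra hc
  rw [sum_SS] at he
  have h1 : ∑ p ∈ HF G ×ˢ HF G, (G.filter (fun x => p.1 * f x * p.2 ∈ A)).card
      < ∑ p ∈ HF G ×ˢ HF G, 1 := by
    refine Finset.sum_lt_sum (fun p hp => ?_) ⟨(1, 1), ?_, ?_⟩
    · rw [Finset.mem_product] at hp
      exact fam_le_one hG hA (Fam_move hf hp.2 hp.1)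
    · rw [Finset.mem_product]
      exact ⟨HF_one, HF_one⟩
    · simp only [one_mul, mul_one]
      omega
  rw [Finset.sum_const, Finset.card_product, smul_eq_mul, mul_one, he] at h1
  exact lt_irrefl _ h1

lemma card_HF (G : Finset α) : (HF G).card = (Fintype.card α - G.card).factorial := by
  classical
  have e := Equiv.Perm.subtypeEquivSubtypePerm (fun i : α => i ∉ G)
  have h1 := Fintype.card_congr e
  rw [Fintype.card_perm] at h1
  have h2 : Fintype.card {i // i ∉ G} = Fintype.card α - G.card := by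
    rw [Fintype.card_subtype_compl]
    simp
  rw [h2] at h1
  rw [h1, Fintype.card_subtype]
  unfold HF
  congr 1
  ext σ
  simp

lemma HF_erase {G : Finset α} {x : α} (hx : x ∈ G) :
    HF (G.erase x) = HF G ∪ SX G x := by
  ext σ
  rw [Finset.mem_union, mem_HF, mem_HF, mem_SX]
  constructor
  · intro h
    by_cases hσ : σ x = x
    · left
      intro i hi
      by_cases hix : i = x
      · rw [hix, hσ]
      · exact h i (Finset.mem_erase.2 ⟨hix, hi⟩)
    · right
      exact ⟨fun i hi hix => h i (Finset.mem_erase.2 ⟨hix, hi⟩), hσ⟩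
  · rintro (h | h) i hi
    · exact h i (Finset.mem_of_mem_erase hi)
    · exact h.1 i (Finset.mem_of_mem_erase hi) (Finset.ne_of_mem_erase hi)

lemma HF_disj {G : Finset α} {x : α} (hx : x ∈ G) : Disjoint (HF G) (SX G x) := by
  rw [Finset.disjoint_left]
  intro σ h1 h2
  rw [mem_HF] at h1
  rw [mem_SX] at h2
  exact h2.2 (h1 x hx)

lemma card_SX {G : Finset α} {x : α} (hx : x ∈ G) {m : ℕ} (hm : 1 ≤ m) (hG : G.card = m)
    (hc : Fintype.card α + 1 = 2 * m) :
    (SX G x).card + (m - 1).factorial = m.factorial := by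
  have h1 := Finset.card_union_of_disjoint (HF_disj hx)
  rw [← HF_erase hx, card_HF, card_HF, Finset.card_erase_of_mem hx, hG] at h1
  have e1 : Fintype.card α - (m - 1) = m := by omega
  have e2 : Fintype.card α - m = m - 1 := by omega
  rw [e1, e2] at h1
  omega

lemma SX_disj {G : Finset α} {x y : α} (hx : x ∈ G) (hxy : x ≠ y) :
    Disjoint (SX G x) (SX G y) := by
  rw [Finset.disjoint_left]
  intro σ h1 h2
  rw [mem_SX] at h1 h2
  exact h1.2 (h2.1 x hx hxy)

/-- the decomposition of a family in `B_G` -/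
lemma card_split {G : Finset α} {A : Finset (Equiv.Perm α)} {m : ℕ} (hG : G.card = m)
    (hB : ∀ σ ∈ A, m ≤ (G.filter (fun i => σ i = i)).card + 1) :
    A.card = (A ∩ HF G).card + ∑ x ∈ G, (A ∩ SX G x).card := by
  have h1 : ∑ x ∈ G, (A ∩ SX G x).card = (G.biUnion (fun x => A ∩ SX G x)).card := by
    rw [Finset.card_biUnion]
    intro x hx y _ hxy
    exact Finset.disjoint_of_subset_left Finset.inter_subset_right
      (Finset.disjoint_of_subset_right Finset.inter_subset_right (SX_disj hx hxy))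
  rw [h1, ← Finset.card_union_of_disjoint]
  · congr 1
    ext σ
    rw [Finset.mem_union, Finset.mem_inter, Finset.mem_biUnion]
    constructor
    · intro hσ
      by_cases hall : ∀ i ∈ G, σ i = i
      · exact Or.inl ⟨hσ, mem_HF.2 hall⟩
      · right
        push Not at hall
        obtain ⟨x, hx, hσx⟩ := hall
        refine ⟨x, hx, Finset.mem_inter.2 ⟨hσ, mem_SX.2 ⟨?_, hσx⟩⟩⟩
        have hsub : G.filter (fun i => σ i = i) ⊆ G.erase x := by
          intro i hi
          rw [Finset.mem_filter] at hi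
          rw [Finset.mem_erase]
          refine ⟨?_, hi.1⟩
          rintro rfl
          exact hσx hi.2
        have hcard : (G.erase x).card ≤ (G.filter (fun i => σ i = i)).card := by
          have := hB σ hσ
          have := Finset.card_erase_add_one hx
          omega
        have heq := Finset.eq_of_subset_of_card_le hsub hcard
        intro i hi hix
        have : i ∈ G.filter (fun i => σ i = i) := by
          rw [heq]
          exact Finset.mem_erase.2 ⟨hix, hi⟩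
        exact (Finset.mem_filter.1 this).2
    · rintro (h | ⟨x, _, h⟩)
      · exact h.1
      · exact (Finset.mem_inter.1 h).1
  · rw [Finset.disjoint_biUnion_right]
    intro x hx
    exact Finset.disjoint_of_subset_left Finset.inter_subset_right
      (Finset.disjoint_of_subset_right Finset.inter_subset_right (HF_disj hx))

/-! ### Families -/

section Family

variable {m : ℕ} {G : Finset α} {x : α}

/-- the shift by `k` of the block `insert x Gᶜ` -/
noncomputable def cyc (E : ZMod m ≃ {i // i ∈ insert x Gᶜ}) (k : ZMod m) : Equiv.Perm α :=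
  (Equiv.addRight k).extendDomain E

lemma cyc_E (E : ZMod m ≃ {i // i ∈ insert x Gᶜ}) (k a : ZMod m) :
    cyc E k (E a : α) = (E (a + k) : α) := by
  unfold cyc
  rw [Equiv.Perm.extendDomain_apply_image]
  rfl

lemma cyc_G (E : ZMod m ≃ {i // i ∈ insert x Gᶜ}) (k : ZMod m) {i : α} (hi : i ∈ G)
    (hix : i ≠ x) : cyc E k i = i := by
  unfold cyc
  apply Equiv.Perm.extendDomain_apply_not_subtype
  rw [Finset.mem_insert, Finset.mem_compl]
  rintro (h | h)
  · exact hix h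
  · exact h hi

/-- the member with label `k` at the place `y` -/
noncomputable def lab (E : ZMod m ≃ {i // i ∈ insert x Gᶜ}) (k : ZMod m) (y : α) :
    Equiv.Perm α := Equiv.swap x y * cyc E k * Equiv.swap x y

lemma E_ne (E : ZMod m ≃ {i // i ∈ insert x Gᶜ}) (hE : (E 0 : α) = x) {a : ZMod m} (ha : a ≠ 0) :
    (E a : α) ≠ x ∧ (E a : α) ∉ G := by
  have h1 : (E a : α) ≠ x := by
    intro h
    apply ha
    apply E.injective
    apply Subtype.ext
    rw [h, hE]
  refine ⟨h1, ?_⟩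
  have h2 := (E a).2
  rw [Finset.mem_insert, Finset.mem_compl] at h2
  exact h2.resolve_left h1

lemma E_inj (E : ZMod m ≃ {i // i ∈ insert x Gᶜ}) {a b : ZMod m} (h : (E a : α) = (E b : α)) :
    a = b := E.injective (Subtype.ext h)

lemma E_surj (E : ZMod m ≃ {i // i ∈ insert x Gᶜ}) (hx : x ∈ G) (hE : (E 0 : α) = x) {i : α}
    (hi : i ∉ G) : ∃ a, a ≠ 0 ∧ (E a : α) = i := by
  have h1 : i ∈ insert x Gᶜ := by
    rw [Finset.mem_insert, Finset.mem_compl]
    exact Or.inr hi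
  refine ⟨E.symm ⟨i, h1⟩, ?_, ?_⟩
  · intro h
    have h2 : E (E.symm ⟨i, h1⟩) = E 0 := by rw [h]
    rw [Equiv.apply_symm_apply] at h2
    have h3 : i = x := by
      have := congrArg Subtype.val h2
      simp only at this
      rw [this, hE]
    rw [h3] at hi
    exact hi hx
  · rw [Equiv.apply_symm_apply]

lemma lab_C (E : ZMod m ≃ {i // i ∈ insert x Gᶜ}) (hE : (E 0 : α) = x) {k a : ZMod m}
    (ha : a ≠ 0) {y : α} (hy : y ∈ G) :
    lab E k y (E a : α) = if a + k = 0 then y else (E (a + k) : α) := by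
  unfold lab
  rw [Equiv.Perm.mul_apply, Equiv.Perm.mul_apply]
  have h1 := E_ne E hE ha
  have h2 : (E a : α) ≠ y := fun h => h1.2 (h ▸ hy)
  rw [Equiv.swap_apply_of_ne_of_ne h1.1 h2, cyc_E]
  split_ifs with h
  · rw [h, hE, Equiv.swap_apply_left]
  · have h3 := E_ne E hE h
    exact Equiv.swap_apply_of_ne_of_ne h3.1 (fun h4 => h3.2 (h4 ▸ hy))

lemma lab_SX (E : ZMod m ≃ {i // i ∈ insert x Gᶜ}) (hx : x ∈ G) (hE : (E 0 : α) = x)
    {k : ZMod m} (hk : k ≠ 0) {y : α} (hy : y ∈ G) : lab E k y ∈ SX G y := by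
  rw [mem_SX]
  constructor
  · intro i hi hiy
    unfold lab
    rw [Equiv.Perm.mul_apply, Equiv.Perm.mul_apply]
    by_cases hix : i = x
    · subst hix
      rw [Equiv.swap_apply_left, cyc_G E k hy (Ne.symm hiy), Equiv.swap_apply_right]
    · rw [Equiv.swap_apply_of_ne_of_ne hix hiy, cyc_G E k hi hix,
        Equiv.swap_apply_of_ne_of_ne hix hiy]
  · unfold lab
    rw [Equiv.Perm.mul_apply, Equiv.Perm.mul_apply, Equiv.swap_apply_right]
    have h1 : cyc E k x = (E k : α) := by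
      have := cyc_E E k 0
      rw [hE, zero_add] at this
      exact this
    have h3 := E_ne E hE hk
    rw [h1, Equiv.swap_apply_of_ne_of_ne h3.1 (fun h4 => h3.2 (h4 ▸ hy))]
    intro h
    exact h3.2 (h ▸ hy)

lemma swap_SX {z u : α} (hz : z ∈ G) (hu : u ∉ G) : Equiv.swap z u ∈ SX G z := by
  rw [mem_SX]
  refine ⟨fun i hi hiz => Equiv.swap_apply_of_ne_of_ne hiz ?_, ?_⟩
  · rintro rfl
    exact hu hi
  · rw [Equiv.swap_apply_left]
    rintro rfl
    exact hu hz

lemma Clash_symm {σ τ : Equiv.Perm α} (h : Clash G σ τ) : Clash G τ σ :=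
  fun i hi h' => h i hi h'.symm

lemma clash_lab (E : ZMod m ≃ {i // i ∈ insert x Gᶜ}) (hx : x ∈ G) (hE : (E 0 : α) = x)
    {k l : ZMod m} (hkl : k ≠ l) {y z : α} (hy : y ∈ G) (hz : z ∈ G) :
    Clash G (lab E k y) (lab E l z) := by
  intro i hi
  obtain ⟨a, ha, rfl⟩ := E_surj E hx hE hi
  rw [lab_C E hE ha hy, lab_C E hE ha hz]
  split_ifs with h1 h2 h2
  · exact absurd (add_left_cancel (h1.trans h2.symm)) hkl
  · intro h
    exact (E_ne E hE h2).2 (h ▸ hy)
  · intro h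
    exact (E_ne E hE h1).2 (h ▸ hz)
  · intro h
    exact hkl (add_left_cancel (E_inj E h))

lemma clash_swap_lab (E : ZMod m ≃ {i // i ∈ insert x Gᶜ}) (hx : x ∈ G) (hE : (E 0 : α) = x)
    {k : ZMod m} (hk : k ≠ 0) {y z u : α} (hy : y ∈ G) (hz : z ∈ G) (hzy : z ≠ y) :
    Clash G (Equiv.swap z u) (lab E k y) := by
  intro i hi
  have hiz : i ≠ z := fun h => hi (h ▸ hz)
  obtain ⟨a, ha, rfl⟩ := E_surj E hx hE hi
  rw [lab_C E hE ha hy]
  by_cases hu : (E a : α) = u
  · rw [hu, Equiv.swap_apply_right]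
    split_ifs with h1
    · exact hzy
    · intro h
      exact (E_ne E hE h1).2 (h ▸ hz)
  · rw [Equiv.swap_apply_of_ne_of_ne hiz hu]
    split_ifs with h1
    · intro h
      exact (E_ne E hE ha).2 (h ▸ hy)
    · intro h
      have := E_inj E h
      apply hk
      have h2 : a + 0 = a + k := by rw [add_zero]; exact this
      exact (add_left_cancel h2).symm

/-- the family with labels `ℓ` and the free point `u` -/
noncomputable def fam (E : ZMod m ≃ {i // i ∈ insert x Gᶜ}) (ℓ : α → ZMod m) (u : α) (y : α) :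
    Equiv.Perm α := if ℓ y = 0 then Equiv.swap y u else lab E (ℓ y) y

lemma Fam_fam (E : ZMod m ≃ {i // i ∈ insert x Gᶜ}) (hx : x ∈ G) (hE : (E 0 : α) = x)
    {ℓ : α → ZMod m} (hℓ : ∀ y ∈ G, ∀ z ∈ G, ℓ y = ℓ z → y = z) {u : α} (hu : u ∉ G) :
    Fam G (fam E ℓ u) := by
  constructor
  · intro y hy
    unfold fam
    split_ifs with h
    · exact swap_SX hy hu
    · exact lab_SX E hx hE h hy
  · intro y hy z hz hyz
    unfold fam
    split_ifs with h1 h2 h2
    · exact absurd (hℓ y hy z hz (h1.trans h2.symm)) hyz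
    · exact clash_swap_lab E hx hE h2 hz hy hyz
    · exact Clash_symm (clash_swap_lab E hx hE h1 hy hz (Ne.symm hyz))
    · exact clash_lab E hx hE (fun h => hyz (hℓ y hy z hz h)) hy hz

/-- the changed member with label `1` -/
noncomputable def md (E : ZMod m ≃ {i // i ∈ insert x Gᶜ}) : Equiv.Perm α :=
  cyc E 1 * Equiv.swap (E (-1) : α) (E (-2) : α)

lemma md_C (E : ZMod m ≃ {i // i ∈ insert x Gᶜ}) (hE : (E 0 : α) = x) {a : ZMod m} :
    md E (E a : α) = if a = -1 then (E (-1) : α) else if a = -2 then x else (E (a + 1) : α) := by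
  unfold md
  rw [Equiv.Perm.mul_apply]
  split_ifs with h1 h2
  · rw [h1, Equiv.swap_apply_left, cyc_E]
    congr 2
    ring
  · rw [h2, Equiv.swap_apply_right, cyc_E, neg_add_cancel, hE]
  · rw [Equiv.swap_apply_of_ne_of_ne, cyc_E]
    · exact fun h => h1 (E_inj E h)
    · exact fun h => h2 (E_inj E h)

lemma md_SX (E : ZMod m ≃ {i // i ∈ insert x Gᶜ}) (hE : (E 0 : α) = x)
    (h1 : (1 : ZMod m) ≠ 0) (h2 : (2 : ZMod m) ≠ 0) : md E ∈ SX G x := by
  have e1 : (-1 : ZMod m) ≠ 0 := neg_ne_zero.2 h1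
  have e2 : (-2 : ZMod m) ≠ 0 := neg_ne_zero.2 h2
  rw [mem_SX]
  constructor
  · intro i hi hix
    unfold md
    rw [Equiv.Perm.mul_apply, Equiv.swap_apply_of_ne_of_ne, cyc_G E 1 hi hix]
    · exact fun h => (E_ne E hE e1).2 (h ▸ hi)
    · exact fun h => (E_ne E hE e2).2 (h ▸ hi)
  · have h3 := md_C E hE (a := 0)
    rw [hE, if_neg (Ne.symm e1), if_neg (Ne.symm e2), zero_add] at h3
    rw [h3]
    exact (E_ne E hE h1).1

lemma clash_md_lab (E : ZMod m ≃ {i // i ∈ insert x Gᶜ}) (hx : x ∈ G) (hE : (E 0 : α) = x)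
    (h1' : (1 : ZMod m) ≠ 0)
    {k : ZMod m} (hk : k ≠ 0) (hk1 : k ≠ 1) {y : α} (hy : y ∈ G) (hyx : y ≠ x) :
    Clash G (md E) (lab E k y) := by
  intro i hi
  obtain ⟨a, ha, rfl⟩ := E_surj E hx hE hi
  rw [lab_C E hE ha hy, md_C E hE]
  split_ifs with h1 h2 h3 h3 h3
  · intro h
    exact (E_ne E hE (neg_ne_zero.2 h1')).2 (h ▸ hy)
  · intro h
    have := E_inj E h
    apply hk
    have h4 : a + 0 = a + k := by rw [add_zero, ← this, h1]
    exact (add_left_cancel h4).symm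
  · exact Ne.symm hyx
  · intro h
    exact (E_ne E hE h3).1 h.symm
  · intro h
    by_cases h4 : a + 1 = 0
    · apply h1
      exact eq_neg_of_add_eq_zero_left h4
    · exact (E_ne E hE h4).2 (h ▸ hy)
  · intro h
    exact hk1 (add_left_cancel (E_inj E h)).symm

lemma clash_md_swap (E : ZMod m ≃ {i // i ∈ insert x Gᶜ}) (hx : x ∈ G) (hE : (E 0 : α) = x)
    (h1' : (1 : ZMod m) ≠ 0) {y : α} (hy : y ∈ G) :
    Clash G (md E) (Equiv.swap y (E (-1) : α)) := by
  intro i hi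
  have hiy : i ≠ y := fun h => hi (h ▸ hy)
  obtain ⟨a, ha, rfl⟩ := E_surj E hx hE hi
  rw [md_C E hE]
  split_ifs with h1 h2
  · rw [h1, Equiv.swap_apply_right]
    intro h
    exact (E_ne E hE (neg_ne_zero.2 h1')).2 (h ▸ hy)
  · rw [Equiv.swap_apply_of_ne_of_ne hiy (fun h => h1 (E_inj E h))]
    exact fun h => (E_ne E hE ha).1 h.symm
  · rw [Equiv.swap_apply_of_ne_of_ne hiy (fun h => h1 (E_inj E h))]
    intro h
    apply h1'
    have h4 : a + 1 = a + 0 := by rw [add_zero]; exact E_inj E h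
    exact add_left_cancel h4

/-- the changed family -/
noncomputable def fam2 (E : ZMod m ≃ {i // i ∈ insert x Gᶜ}) (ℓ : α → ZMod m) (y : α) :
    Equiv.Perm α := if y = x then md E else fam E ℓ (E (-1) : α) y

lemma Fam_fam2 (E : ZMod m ≃ {i // i ∈ insert x Gᶜ}) (hx : x ∈ G) (hE : (E 0 : α) = x)
    (h1' : (1 : ZMod m) ≠ 0) (h2' : (2 : ZMod m) ≠ 0)
    {ℓ : α → ZMod m} (hℓ : ∀ y ∈ G, ∀ z ∈ G, ℓ y = ℓ z → y = z) (hℓx : ℓ x = 1) :
    Fam G (fam2 E ℓ) := by
  have hu : (E (-1) : α) ∉ G := (E_ne E hE (neg_ne_zero.2 h1')).2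
  have hF := Fam_fam E hx hE hℓ hu
  have key : ∀ z ∈ G, z ≠ x → Clash G (md E) (fam E ℓ (E (-1) : α) z) := by
    intro z hz hzx
    unfold fam
    split_ifs with h
    · exact clash_md_swap E hx hE h1' hz
    · refine clash_md_lab E hx hE h1' h (fun h3 => ?_) hz hzx
      exact hzx (hℓ z hz x hx (h3.trans hℓx.symm))
  constructor
  · intro y hy
    unfold fam2
    split_ifs with h
    · rw [h]
      exact md_SX E hE h1' h2'
    · exact hF.1 y hy
  · intro y hy z hz hyz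
    unfold fam2
    split_ifs with h1 h2 h2
    · exact absurd (h1.trans h2.symm) hyz
    · exact key z hz h2
    · exact Clash_symm (key y hy h1)
    · exact hF.2 y hy z hz hyz

end Family

/-! ### Existence of labellings -/

lemma exists_equiv1 {X Y : Type*} [DecidableEq Y] (e0 : X ≃ Y) (a1 : X) (b1 : Y) :
    ∃ e : X ≃ Y, e a1 = b1 :=
  ⟨e0.trans (Equiv.swap (e0 a1) b1), by simp⟩

lemma exists_equiv3 {X Y : Type*} [DecidableEq Y] (e0 : X ≃ Y) {a1 a2 a3 : X} {b1 b2 b3 : Y}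
    (h12 : a1 ≠ a2) (h13 : a1 ≠ a3) (h23 : a2 ≠ a3) (k12 : b1 ≠ b2) (k13 : b1 ≠ b3)
    (k23 : b2 ≠ b3) : ∃ e : X ≃ Y, e a1 = b1 ∧ e a2 = b2 ∧ e a3 = b3 := by
  obtain ⟨e1, he1⟩ := exists_equiv1 e0 a1 b1
  have step2 : ∃ e2 : X ≃ Y, e2 a1 = b1 ∧ e2 a2 = b2 := by
    refine ⟨e1.trans (Equiv.swap (e1 a2) b2), ?_, ?_⟩
    · rw [Equiv.trans_apply, he1]
      apply Equiv.swap_apply_of_ne_of_ne _ k12
      intro h
      exact h12 (e1.injective (he1.trans h))
    · rw [Equiv.trans_apply, Equiv.swap_apply_left]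
  obtain ⟨e2, he21, he22⟩ := step2
  refine ⟨e2.trans (Equiv.swap (e2 a3) b3), ?_, ?_, ?_⟩
  · rw [Equiv.trans_apply, he21]
    apply Equiv.swap_apply_of_ne_of_ne _ k13
    intro h
    exact h13 (e2.injective (he21.trans h))
  · rw [Equiv.trans_apply, he22]
    apply Equiv.swap_apply_of_ne_of_ne _ k23
    intro h
    exact h23 (e2.injective (he22.trans h))
  · rw [Equiv.trans_apply, Equiv.swap_apply_left]

lemma exists_E0 {m : ℕ} (hm : 1 ≤ m) {G : Finset α} (hG : G.card = m)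
    (hc : Fintype.card α + 1 = 2 * m) {x : α} (hx : x ∈ G) :
    Nonempty (ZMod m ≃ {i // i ∈ insert x Gᶜ}) := by
  have : NeZero m := ⟨by omega⟩
  refine Fintype.card_eq.1 ?_
  rw [ZMod.card, Fintype.card_coe, Finset.card_insert_of_notMem, Finset.card_compl, hG]
  · omega
  · rw [Finset.mem_compl, not_not]
    exact hx

lemma exists_label {m : ℕ} (hm : 1 ≤ m) {G : Finset α} (hG : G.card = m) {x : α} (hx : x ∈ G)
    (k0 : ZMod m) : ∃ ℓ : α → ZMod m, (∀ y ∈ G, ∀ z ∈ G, ℓ y = ℓ z → y = z) ∧ ℓ x = k0 := by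
  have : NeZero m := ⟨by omega⟩
  have h0 : Nonempty ({i // i ∈ G} ≃ ZMod m) := by
    refine Fintype.card_eq.1 ?_
    rw [ZMod.card, Fintype.card_coe, hG]
  obtain ⟨L⟩ := h0
  refine ⟨fun i => if h : i ∈ G then L ⟨i, h⟩ - L ⟨x, hx⟩ + k0 else 0, ?_, ?_⟩
  · intro y hy z hz h
    simp only [dif_pos hy, dif_pos hz] at h
    have h1 := add_right_cancel h
    have h2 : L ⟨y, hy⟩ = L ⟨z, hz⟩ := by
      have := congrArg (fun t => t + L ⟨x, hx⟩) h1
      simpa using this
    exact congrArg Subtype.val (L.injective h2)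
  · simp only [dif_pos hx]
    ring

lemma fam_switch {G : Finset α} {A : Finset (Equiv.Perm α)}
    (hone : ∀ f, Fam G f → (G.filter (fun x => f x ∈ A)).card = 1)
    {x : α} (hx : x ∈ G) {f f' : α → Equiv.Perm α} (hf : Fam G f) (hf' : Fam G f')
    (hag : ∀ y ∈ G, y ≠ x → f y = f' y) (h : f x ∈ A) : f' x ∈ A := by
  by_contra hc
  have h1 := hone f hf
  have h2 := hone f' hf'
  rw [Finset.card_filter, ← Finset.add_sum_erase G _ hx] at h1 h2
  have h3 : ∑ y ∈ G.erase x, (if f y ∈ A then 1 else 0) =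
      ∑ y ∈ G.erase x, (if f' y ∈ A then 1 else 0) := by
    refine Finset.sum_congr rfl (fun y hy => ?_)
    rw [Finset.mem_erase] at hy
    rw [hag y hy.2 hy.1]
  rw [h3, if_pos h] at h1
  rw [if_neg hc] at h2
  omega

lemma rel1 {G : Finset α} {A : Finset (Equiv.Perm α)} {m : ℕ} (hm : 2 ≤ m) (hG : G.card = m)
    (hc : Fintype.card α + 1 = 2 * m)
    (hone : ∀ f, Fam G f → (G.filter (fun x => f x ∈ A)).card = 1)
    {x : α} (hx : x ∈ G) {v v' : α} (hv : v ∉ G) (hv' : v' ∉ G) {ρ : Equiv.Perm α}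
    (hρ : ρ ∈ HF G) (h : ρ * Equiv.swap x v ∈ A) : ρ * Equiv.swap x v' ∈ A := by
  obtain ⟨E0⟩ := exists_E0 (by omega) hG hc hx
  obtain ⟨E, hE'⟩ := exists_equiv1 E0 0 ⟨x, Finset.mem_insert_self x _⟩
  have hE : (E 0 : α) = x := by rw [hE']
  obtain ⟨ℓ, hℓ, hℓx⟩ := exists_label (by omega) hG hx (0 : ZMod m)
  have hf := Fam_move (Fam_fam E hx hE hℓ hv) (HF_one (G := G)) hρ
  have hf' := Fam_move (Fam_fam E hx hE hℓ hv') (HF_one (G := G)) hρ
  have h1 := fam_switch hone hx hf hf' (fun y hy hyx => by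
    unfold fam
    have : ℓ y ≠ 0 := fun h => hyx (hℓ y hy x hx (h.trans hℓx.symm))
    rw [if_neg this, if_neg this]) (by
    unfold fam
    rw [if_pos hℓx, mul_one]
    exact h)
  unfold fam at h1
  simp only [hℓx, if_true, mul_one] at h1
  exact h1

lemma rel2 {G : Finset α} {A : Finset (Equiv.Perm α)} {m : ℕ} (hG : G.card = m)
    (hc : Fintype.card α + 1 = 2 * m)
    (hone : ∀ f, Fam G f → (G.filter (fun x => f x ∈ A)).card = 1)
    {x : α} (hx : x ∈ G) {v b : α} (hv : v ∉ G) (hb : b ∉ G) (hvb : v ≠ b) {ρ : Equiv.Perm α}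
    (hρ : ρ ∈ HF G) (h : ρ * Equiv.swap x v ∈ A) :
    ρ * Equiv.swap v b * Equiv.swap x b ∈ A := by
  have hm : 3 ≤ m := by
    have h1 : ({v, b} : Finset α) ⊆ Gᶜ := by
      intro i hi
      rw [Finset.mem_insert, Finset.mem_singleton] at hi
      rw [Finset.mem_compl]
      rcases hi with rfl | rfl
      · exact hv
      · exact hb
    have h2 := Finset.card_le_card h1
    rw [Finset.card_pair hvb, Finset.card_compl, hG] at h2
    omega
  have h1' : (1 : ZMod m) ≠ 0 := by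
    intro h1
    have h2 : ((1 : ℕ) : ZMod m) = 0 := by exact_mod_cast h1
    rw [ZMod.natCast_eq_zero_iff] at h2
    have := Nat.le_of_dvd one_pos h2
    omega
  have h2' : (2 : ZMod m) ≠ 0 := by
    intro h1
    have h2 : ((2 : ℕ) : ZMod m) = 0 := by exact_mod_cast h1
    rw [ZMod.natCast_eq_zero_iff] at h2
    have := Nat.le_of_dvd two_pos h2
    omega
  have hxv : x ≠ v := fun h => hv (h ▸ hx)
  have hxb : x ≠ b := fun h => hb (h ▸ hx)
  obtain ⟨E0⟩ := exists_E0 (by omega) hG hc hx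
  have hmem : ∀ i, i ∉ G → i ∈ insert x Gᶜ := by
    intro i hi
    rw [Finset.mem_insert, Finset.mem_compl]
    exact Or.inr hi
  obtain ⟨E, hE0, hE1, hE2⟩ := exists_equiv3 E0 (a1 := 0) (a2 := -1) (a3 := -2)
    (b1 := ⟨x, Finset.mem_insert_self x _⟩) (b2 := ⟨v, hmem v hv⟩) (b3 := ⟨b, hmem b hb⟩)
    (Ne.symm (neg_ne_zero.2 h1')) (Ne.symm (neg_ne_zero.2 h2'))
    (by
      intro h3
      have h4 : (1 : ZMod m) = 2 := neg_injective h3
      apply h1'
      have h5 : (1 : ZMod m) + 1 = 1 + 0 := by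
        rw [add_zero, one_add_one_eq_two]
        exact h4.symm
      exact add_left_cancel h5)
    (fun h3 => hxv (congrArg Subtype.val h3)) (fun h3 => hxb (congrArg Subtype.val h3))
    (fun h3 => hvb (congrArg Subtype.val h3))
  have hE : (E 0 : α) = x := by rw [hE0]
  have hEv : (E (-1) : α) = v := by rw [hE1]
  have hEb : (E (-2) : α) = b := by rw [hE2]
  obtain ⟨ℓ, hℓ, hℓx⟩ := exists_label (by omega) hG hx (1 : ZMod m)
  have hcv : cyc E 1 v = x := by
    rw [← hEv, cyc_E, neg_add_cancel, hE]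
  have hρ' : ρ * Equiv.swap x v * (cyc E 1)⁻¹ ∈ HF G := by
    rw [mem_HF] at hρ ⊢
    intro i hi
    rw [Equiv.Perm.mul_apply, Equiv.Perm.mul_apply]
    by_cases hix : i = x
    · subst hix
      have : (cyc E 1)⁻¹ i = v := by rw [Equiv.Perm.inv_eq_iff_eq, hcv]
      rw [this, Equiv.swap_apply_right]
      exact hρ i hi
    · have : (cyc E 1)⁻¹ i = i := by rw [Equiv.Perm.inv_eq_iff_eq, cyc_G E 1 hi hix]
      rw [this, Equiv.swap_apply_of_ne_of_ne hix (show i ≠ v from fun h3 => hv (h3 ▸ hi))]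
      exact hρ i hi
  have hf := Fam_move (Fam_fam E hx hE hℓ (u := (E (-1) : α)) (by rw [hEv]; exact hv))
    (HF_one (G := G)) hρ'
  have hf' := Fam_move (Fam_fam2 E hx hE h1' h2' hℓ hℓx) (HF_one (G := G)) hρ'
  have h5 := fam_switch hone hx hf hf' (fun y hy hyx => by
    unfold fam2
    rw [if_neg hyx]) (by
    unfold fam
    rw [hℓx, if_neg h1', mul_one]
    unfold lab
    rw [Equiv.swap_self]
    have : ρ * Equiv.swap x v * (cyc E 1)⁻¹ * (Equiv.refl α * cyc E 1 * Equiv.refl α) =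
        ρ * Equiv.swap x v := by
      change ρ * Equiv.swap x v * (cyc E 1)⁻¹ * (1 * cyc E 1 * 1) = ρ * Equiv.swap x v
      group
    rw [this]
    exact h)
  unfold fam2 at h5
  simp only [if_true, mul_one] at h5
  unfold md at h5
  rw [hEv, hEb] at h5
  have h6 : ρ * Equiv.swap x v * (cyc E 1)⁻¹ * (cyc E 1 * Equiv.swap v b) =
      ρ * Equiv.swap v b * Equiv.swap x b := by
    have h7 := Equiv.mul_swap_eq_swap_mul (Equiv.swap v b) x b
    rw [Equiv.swap_apply_right, Equiv.swap_apply_of_ne_of_ne hxv hxb] at h7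
    rw [mul_assoc ρ (Equiv.swap v b), h7]
    group
  rw [h6] at h5
  exact h5

/-- all or nothing -/
lemma all_of_one {G : Finset α} {A : Finset (Equiv.Perm α)} {m : ℕ} (hm : 2 ≤ m)
    (hG : G.card = m) (hc : Fintype.card α + 1 = 2 * m)
    (hone : ∀ f, Fam G f → (G.filter (fun x => f x ∈ A)).card = 1)
    {x : α} (hx : x ∈ G) {τ : Equiv.Perm α} (hτA : τ ∈ A) (hτ : τ ∈ SX G x) : SX G x ⊆ A := by
  have key : ∀ {σ : Equiv.Perm α}, σ ∈ SX G x → σ * Equiv.swap x (σ⁻¹ x) ∈ HF G := by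
    intro σ hσ
    have hv := inv_not_mem hσ
    rw [mem_SX] at hσ
    rw [mem_HF]
    intro i hi
    rw [Equiv.Perm.mul_apply]
    by_cases hix : i = x
    · subst hix
      rw [Equiv.swap_apply_left, api]
    · rw [Equiv.swap_apply_of_ne_of_ne hix (show i ≠ σ⁻¹ x from fun h => hv (h ▸ hi)),
        hσ.1 i hi hix]
  have hself : ∀ σ : Equiv.Perm α, σ * Equiv.swap x (σ⁻¹ x) * Equiv.swap x (σ⁻¹ x) = σ := by
    intro σ
    rw [mul_assoc, Equiv.swap_mul_self, mul_one]
  set ρ0 := τ * Equiv.swap x (τ⁻¹ x) with hρ0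
  have hρ0F : ρ0 ∈ HF G := key hτ
  have hbase : ∀ v, v ∉ G → ρ0 * Equiv.swap x v ∈ A := by
    intro v hv
    refine rel1 hm hG hc hone hx (inv_not_mem hτ) hv hρ0F ?_
    rw [hρ0, hself]
    exact hτA
  have hind : ∀ κ : Equiv.Perm {i // i ∉ G}, ρ0 * Equiv.Perm.ofSubtype κ ∈ HF G ∧
      ∀ v, v ∉ G → ρ0 * Equiv.Perm.ofSubtype κ * Equiv.swap x v ∈ A := by
    intro κ
    refine Equiv.Perm.swap_induction_on' κ ?_ ?_
    · rw [map_one, mul_one]
      exact ⟨hρ0F, hbase⟩
    · intro f p q hpq hf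
      rw [map_mul, Equiv.Perm.ofSubtype_swap_eq, ← mul_assoc]
      have hpq' : (p : α) ≠ q := fun h => hpq (Subtype.ext h)
      have hsw : Equiv.swap (p : α) (q : α) ∈ HF G := by
        rw [mem_HF]
        intro i hi
        exact Equiv.swap_apply_of_ne_of_ne (fun h => p.2 (h ▸ hi)) (fun h => q.2 (h ▸ hi))
      have hF := HF_mul hf.1 hsw
      refine ⟨hF, fun v hv => ?_⟩
      exact rel1 hm hG hc hone hx q.2 hv hF
        (rel2 hG hc hone hx p.2 q.2 hpq' hf.1 (hf.2 p p.2))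
  intro σ hσ
  have h1 := key hσ
  set ρ := σ * Equiv.swap x (σ⁻¹ x) with hρ
  have hκ : ρ0⁻¹ * ρ ∈ HF G := HF_mul (HF_inv hρ0F) h1
  rw [mem_HF] at hκ
  have hp1 : ∀ i, ((ρ0⁻¹ * ρ) i ∉ G) ↔ i ∉ G := by
    intro i
    rw [not_iff_not]
    constructor
    · intro hi
      have := hκ _ hi
      have h3 := (ρ0⁻¹ * ρ).injective this
      rw [h3] at hi
      exact hi
    · intro hi
      rw [hκ i hi]
      exact hi
  have hp2 : ∀ i, (ρ0⁻¹ * ρ) i ≠ i → i ∉ G := by
    intro i hi hiG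
    exact hi (hκ i hiG)
  have h2 := (hind ((ρ0⁻¹ * ρ).subtypePerm hp1)).2 _ (inv_not_mem hσ)
  rw [Equiv.Perm.ofSubtype_subtypePerm hp1 hp2] at h2
  have h3 : ρ0 * (ρ0⁻¹ * ρ) * Equiv.swap x (σ⁻¹ x) = σ := by
    rw [mul_inv_cancel_left, hρ, hself]
  rw [h3] at h2
  exact h2

/-! ### The theorem, base point the identity -/

lemma exists_fam {G : Finset α} {m : ℕ} (hm : 2 ≤ m) (hG : G.card = m)
    (hc : Fintype.card α + 1 = 2 * m) : ∃ f, Fam G f := by
  have h1 : G.Nonempty := by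
    rw [← Finset.card_pos]
    omega
  obtain ⟨x, hx⟩ := h1
  have h2 : Gᶜ.Nonempty := by
    rw [← Finset.card_pos, Finset.card_compl, hG]
    omega
  obtain ⟨u, hu⟩ := h2
  rw [Finset.mem_compl] at hu
  obtain ⟨E0⟩ := exists_E0 (by omega) hG hc hx
  obtain ⟨E, hE'⟩ := exists_equiv1 E0 0 ⟨x, Finset.mem_insert_self x _⟩
  have hE : (E 0 : α) = x := by rw [hE']
  obtain ⟨ℓ, hℓ, _⟩ := exists_label (by omega) hG hx (0 : ZMod m)
  exact ⟨_, Fam_fam E hx hE hℓ hu⟩

/-- the averaging identity -/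
lemma avg {G : Finset α} (A : Finset (Equiv.Perm α)) {m : ℕ} (hm : 1 ≤ m) (hG : G.card = m)
    (hc : Fintype.card α + 1 = 2 * m) {f : α → Equiv.Perm α} (hf : Fam G f) :
    (m.factorial - (m - 1).factorial) * ∑ x ∈ G, SS G A (f x) =
      ((HF G).card * (HF G).card) * ∑ x ∈ G, (A ∩ SX G x).card := by
  rw [Finset.mul_sum, Finset.mul_sum]
  refine Finset.sum_congr rfl (fun x hx => ?_)
  rw [← SS_sum A hx, Finset.sum_congr rfl (fun σ hσ => SS_const A hσ (hf.1 x hx)),
    Finset.sum_const, smul_eq_mul]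
  have := card_SX hx hm hG hc
  congr 1
  omega

lemma HF_pos (G : Finset α) : 0 < (HF G).card * (HF G).card := by
  have : 0 < (HF G).card := Finset.card_pos.2 ⟨1, HF_one⟩
  exact Nat.mul_pos this this

lemma sum_inter_le {G : Finset α} {A : Finset (Equiv.Perm α)} {m : ℕ} (hm : 2 ≤ m)
    (hG : G.card = m) (hc : Fintype.card α + 1 = 2 * m)
    (hA : ∀ σ ∈ A, ∀ τ ∈ A, m ≤ (univ.filter (fun i => σ i = τ i)).card + 1) :
    ∑ x ∈ G, (A ∩ SX G x).card ≤ m.factorial - (m - 1).factorial := by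
  obtain ⟨f, hf⟩ := exists_fam hm hG hc
  have h1 := avg A (by omega) hG hc hf
  have h2 := sum_SS_le hG hA hf
  refine Nat.le_of_mul_le_mul_left ?_ (HF_pos G)
  rw [← h1, mul_comm]
  exact Nat.mul_le_mul_right _ h2

lemma card_HF' {G : Finset α} {m : ℕ} (hG : G.card = m) (hc : Fintype.card α + 1 = 2 * m) :
    (HF G).card = (m - 1).factorial := by
  rw [card_HF, hG]
  congr 1
  omega

theorem link_le_one {G : Finset α} {A : Finset (Equiv.Perm α)} {m : ℕ} (hm : 2 ≤ m)
    (hG : G.card = m) (hc : Fintype.card α + 1 = 2 * m)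
    (hA : ∀ σ ∈ A, ∀ τ ∈ A, m ≤ (univ.filter (fun i => σ i = τ i)).card + 1)
    (hB : ∀ σ ∈ A, m ≤ (G.filter (fun i => σ i = i)).card + 1) : A.card ≤ m.factorial := by
  rw [card_split hG hB]
  have h1 := sum_inter_le hm hG hc hA
  have h2 : (A ∩ HF G).card ≤ (m - 1).factorial := by
    rw [← card_HF' hG hc]
    exact Finset.card_le_card Finset.inter_subset_right
  have h3 : (m - 1).factorial ≤ m.factorial := Nat.factorial_le (by omega)
  omega

theorem link_eq_one {G : Finset α} {A : Finset (Equiv.Perm α)} {m : ℕ} (hm : 2 ≤ m)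
    (hG : G.card = m) (hc : Fintype.card α + 1 = 2 * m)
    (hA : ∀ σ ∈ A, ∀ τ ∈ A, m ≤ (univ.filter (fun i => σ i = τ i)).card + 1)
    (hB : ∀ σ ∈ A, m ≤ (G.filter (fun i => σ i = i)).card + 1) (hcard : A.card = m.factorial) :
    ∃ x ∈ G, A = HF (G.erase x) := by
  have h0 := card_split hG hB
  have h1 := sum_inter_le hm hG hc hA
  have h2 : (A ∩ HF G).card ≤ (m - 1).factorial := by
    rw [← card_HF' hG hc]
    exact Finset.card_le_card Finset.inter_subset_right
  have h3 : (m - 1).factorial < m.factorial := by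
    obtain ⟨k, rfl⟩ : ∃ k, m = k + 2 := ⟨m - 2, by omega⟩
    have e : k + 2 - 1 = k + 1 := by omega
    rw [e, Nat.factorial_succ (k + 1)]
    have := Nat.factorial_pos (k + 1)
    nlinarith
  have h4 : ∑ x ∈ G, (A ∩ SX G x).card = m.factorial - (m - 1).factorial := by omega
  have h5 : (A ∩ HF G).card = (m - 1).factorial := by omega
  have hone : ∀ f, Fam G f → (G.filter (fun x => f x ∈ A)).card = 1 := by
    intro f hf
    refine fam_eq_one hG hA hf ?_
    have h6 := avg A (by omega) hG hc hf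
    rw [h4, mul_comm] at h6
    exact Nat.eq_of_mul_eq_mul_right (by omega) h6
  have hHF : HF G ⊆ A := by
    have h7 : A ∩ HF G = HF G := by
      apply Finset.eq_of_subset_of_card_le Finset.inter_subset_right
      rw [h5, card_HF' hG hc]
    intro σ hσ
    rw [← h7] at hσ
    exact (Finset.mem_inter.1 hσ).1
  have h8 : ∃ x ∈ G, (A ∩ SX G x).Nonempty := by
    by_contra hne
    push Not at hne
    have : ∑ x ∈ G, (A ∩ SX G x).card = 0 := by
      refine Finset.sum_eq_zero (fun x hx => ?_)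
      rw [hne x hx, Finset.card_empty]
    omega
  obtain ⟨x, hx, τ, hτ⟩ := h8
  rw [Finset.mem_inter] at hτ
  have h9 := all_of_one hm hG hc hone hx hτ.1 hτ.2
  refine ⟨x, hx, ?_⟩
  symm
  apply Finset.eq_of_subset_of_card_le
  · rw [HF_erase hx]
    exact Finset.union_subset hHF h9
  · rw [hcard, card_HF, Finset.card_erase_of_mem hx, hG]
    have e1 : Fintype.card α - (m - 1) = m := by omega
    rw [e1]

/-! ### General base point -/

lemma shift_agree (g : Equiv.Perm α) (A : Finset (Equiv.Perm α)) {m : ℕ}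
    (hA : ∀ σ ∈ A, ∀ τ ∈ A, m ≤ (univ.filter (fun i => σ i = τ i)).card + 1) :
    ∀ σ ∈ A.image (fun σ => g⁻¹ * σ), ∀ τ ∈ A.image (fun σ => g⁻¹ * σ),
      m ≤ (univ.filter (fun i => σ i = τ i)).card + 1 := by
  intro σ hσ τ hτ
  rw [Finset.mem_image] at hσ hτ
  obtain ⟨σ', h1, rfl⟩ := hσ
  obtain ⟨τ', h2, rfl⟩ := hτ
  have h3 := hA σ' h1 τ' h2
  have h4 : (univ.filter (fun i => (g⁻¹ * σ') i = (g⁻¹ * τ') i)) =
      univ.filter (fun i => σ' i = τ' i) := by
    ext i
    simp only [Finset.mem_filter, Finset.mem_univ, true_and, Equiv.Perm.mul_apply,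
      EmbeddingLike.apply_eq_iff_eq]
  rw [h4]
  exact h3

lemma shift_B (g : Equiv.Perm α) (G : Finset α) (A : Finset (Equiv.Perm α)) {m : ℕ}
    (hB : ∀ σ ∈ A, m ≤ (G.filter (fun i => σ i = g i)).card + 1) :
    ∀ σ ∈ A.image (fun σ => g⁻¹ * σ), m ≤ (G.filter (fun i => σ i = i)).card + 1 := by
  intro σ hσ
  rw [Finset.mem_image] at hσ
  obtain ⟨σ', h1, rfl⟩ := hσ
  have h3 := hB σ' h1
  have h4 : (G.filter (fun i => (g⁻¹ * σ') i = i)) = G.filter (fun i => σ' i = g i) := by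
    ext i
    simp only [Finset.mem_filter, Equiv.Perm.mul_apply, Equiv.Perm.inv_eq_iff_eq]
  rw [h4]
  exact h3

/-- **Link lemma.** -/
theorem link_le (m : ℕ) (hm : 2 ≤ m) (hc : Fintype.card α + 1 = 2 * m) (G : Finset α)
    (hG : G.card = m) (g : Equiv.Perm α) (A : Finset (Equiv.Perm α))
    (hA : ∀ σ ∈ A, ∀ τ ∈ A, m ≤ (univ.filter (fun i => σ i = τ i)).card + 1)
    (hB : ∀ σ ∈ A, m ≤ (G.filter (fun i => σ i = g i)).card + 1) : A.card ≤ m.factorial := by
  have h1 := link_le_one hm hG hc (shift_agree g A hA) (shift_B g G A hB)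
  rwa [Finset.card_image_of_injective _ (mul_right_injective g⁻¹)] at h1

/-- **Link lemma, equality.** -/
theorem link_eq (m : ℕ) (hm : 2 ≤ m) (hc : Fintype.card α + 1 = 2 * m) (G : Finset α)
    (hG : G.card = m) (g : Equiv.Perm α) (A : Finset (Equiv.Perm α))
    (hA : ∀ σ ∈ A, ∀ τ ∈ A, m ≤ (univ.filter (fun i => σ i = τ i)).card + 1)
    (hB : ∀ σ ∈ A, m ≤ (G.filter (fun i => σ i = g i)).card + 1)
    (hcard : A.card = m.factorial) :
    ∃ x ∈ G, A = univ.filter (fun σ : Equiv.Perm α => ∀ i ∈ G, i ≠ x → σ i = g i) := by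
  obtain ⟨x, hx, h1⟩ := link_eq_one hm hG hc (shift_agree g A hA) (shift_B g G A hB)
    (by rw [Finset.card_image_of_injective _ (mul_right_injective g⁻¹)]; exact hcard)
  refine ⟨x, hx, ?_⟩
  ext σ
  have h2 : σ ∈ A ↔ g⁻¹ * σ ∈ A.image (fun σ => g⁻¹ * σ) := by
    rw [Finset.mem_image]
    constructor
    · intro h
      exact ⟨σ, h, rfl⟩
    · rintro ⟨σ', h, he⟩
      have := mul_left_cancel he
      rw [← this]
      exact h
  rw [h2, h1, mem_HF, Finset.mem_filter]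
  constructor
  · intro h
    refine ⟨Finset.mem_univ _, fun i hi hix => ?_⟩
    have := h i (Finset.mem_erase.2 ⟨hix, hi⟩)
    rw [Equiv.Perm.mul_apply, Equiv.Perm.inv_eq_iff_eq] at this
    exact this
  · intro h i hi
    rw [Equiv.Perm.mul_apply, Equiv.Perm.inv_eq_iff_eq]
    exact h.2 i (Finset.mem_of_mem_erase hi) (Finset.ne_of_mem_erase hi)

/-- equality case, membership form -/
theorem link_eq_mem (m : ℕ) (hm : 2 ≤ m) (hc : Fintype.card α + 1 = 2 * m) (G : Finset α)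
    (hG : G.card = m) (g : Equiv.Perm α) (A : Finset (Equiv.Perm α))
    (hA : ∀ σ ∈ A, ∀ τ ∈ A, m ≤ (univ.filter (fun i => σ i = τ i)).card + 1)
    (hB : ∀ σ ∈ A, m ≤ (G.filter (fun i => σ i = g i)).card + 1)
    (hcard : A.card = m.factorial) :
    ∃ x ∈ G, ∀ σ : Equiv.Perm α, σ ∈ A ↔ ∀ i ∈ G, i ≠ x → σ i = g i := by
  obtain ⟨x, hx, he⟩ := link_eq m hm hc G hG g A hA hB hcard
  refine ⟨x, hx, fun σ => ?_⟩
  rw [he, Finset.mem_filter]
  exact ⟨fun h => h.2, fun h => ⟨Finset.mem_univ _, h⟩⟩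

end Pool.Link63
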