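import Pool.Agent.Work.MP_46fa68_76.EndStmt
import Pool.Agent.Work.MP_46fa68_63.LinkLemma

set_option autoImplicit false

/-!
# `Pool.EG.Link t` for all `t ≥ 1` (helper63)
-/

namespace Pool.EG

open Finset Equiv

theorem link_all (t : ℕ) (ht : 1 ≤ t) : Link t := by
  intro A g T hT hA hB
  have hc : Fintype.card (Fin (2 * t + 1)) + 1 = 2 * (t + 1) := by
    rw [Fintype.card_fin]
    ring
  have hA' : ∀ σ ∈ A, ∀ τ ∈ A, t + 1 ≤ (univ.filter (fun i => σ i = τ i)).card + 1 := by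
    intro σ hσ τ hτ
    have := hA σ hσ τ hτ
    unfold ag at this
    omega
  have hB' : ∀ σ ∈ A, t + 1 ≤ (T.filter (fun i => σ i = g i)).card + 1 := by
    intro σ hσ
    have := hB σ hσ
    omega
  refine ⟨Pool.Link63.link_le (t + 1) (by omega) hc T hT g A hA' hB', fun h => ?_⟩
  obtain ⟨x, hx, he⟩ := Pool.Link63.link_eq_mem (t + 1) (by omega) hc T hT g A hA' hB' h
  refine ⟨x, hx, fun σ hσ i hi => ?_⟩
  exact (he σ).1 hσ i (Finset.mem_of_mem_erase hi) (Finset.ne_of_mem_erase hi)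

end Pool.EG
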